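import Mathlib

namespace Pool.Agent.H11.Xray

/-- The inclusion `ℤ² → ℝ²`. -/
def toR (x : ℤ × ℤ) : ℝ × ℝ := ((x.1 : ℝ), (x.2 : ℝ))

/-- A line of `ℝ²`: an affine subspace with one-dimensional direction. -/
def IsLine (l : AffineSubspace ℝ (ℝ × ℝ)) : Prop := Module.finrank ℝ l.direction = 1

/-- `F = conv(F) ∩ ℤ²`. -/
def IsConvexLatticeSet (F : Finset (ℤ × ℤ)) : Prop :=
  ∀ x : ℤ × ℤ, x ∈ F ↔ toR x ∈ convexHull ℝ (toR '' (F : Set (ℤ × ℤ)))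

/-- The number of points of `E` on `l`. -/
noncomputable def countOn (E : Finset (ℤ × ℤ)) (l : AffineSubspace ℝ (ℝ × ℝ)) : ℕ :=
  {x : ℤ × ℤ | x ∈ E ∧ toR x ∈ l}.ncard

/-- `E` and `F` have the same discrete point X-ray at `p`. -/
def SameXray (p : ℤ × ℤ) (E F : Finset (ℤ × ℤ)) : Prop :=
  ∀ l : AffineSubspace ℝ (ℝ × ℝ), IsLine l → toR p ∈ l → countOn E l = countOn F l

/-- The class `𝒞_P`: convex lattice sets disjoint from every line through two distinct points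
of `P`. -/
def InClass (P F : Finset (ℤ × ℤ)) : Prop :=
  IsConvexLatticeSet F ∧ ∀ p ∈ P, ∀ q ∈ P, p ≠ q →
    ∀ l : AffineSubspace ℝ (ℝ × ℝ), IsLine l → toR p ∈ l → toR q ∈ l → ∀ x ∈ F, toR x ∉ l

/-- Discrete point X-rays at `P` determine convex lattice sets. -/
def Determines (P : Finset (ℤ × ℤ)) : Prop :=
  ∀ F₁ F₂ : Finset (ℤ × ℤ), InClass P F₁ → InClass P F₂ → (∀ p ∈ P, SameXray p F₁ F₂) → F₁ = F₂

end Pool.Agent.H11.Xray
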