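import Mathlib
import Pool.Agent.H11.Xray.Defs

namespace Pool.Agent.H11.Xray

open Finset

lemma toR_inj : Function.Injective toR := by
  intro x y h
  simp only [toR, Prod.mk.injEq, Int.cast_inj] at h
  exact Prod.ext h.1 h.2

/-- Points of a line through two distinct points. -/
lemma mem_line {l : AffineSubspace ℝ (ℝ × ℝ)} (hl : IsLine l) {a b x : ℝ × ℝ} (hab : a ≠ b)
    (ha : a ∈ l) (hb : b ∈ l) (hx : x ∈ l) : ∃ t : ℝ, x = a + t • (b - a) := by
  have h1 : b - a ∈ l.direction := AffineSubspace.vsub_mem_direction hb ha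
  have h2 : x - a ∈ l.direction := AffineSubspace.vsub_mem_direction hx ha
  have h3 : (⟨b - a, h1⟩ : l.direction) ≠ 0 := by
    intro h
    apply hab
    have : b - a = 0 := congrArg Subtype.val h
    exact (sub_eq_zero.1 this).symm
  obtain ⟨t, ht⟩ := (finrank_eq_one_iff_of_nonzero' _ h3).1 hl ⟨x - a, h2⟩
  refine ⟨t, ?_⟩
  have : t • (b - a) = x - a := congrArg Subtype.val ht
  rw [this]; abel

lemma mem_iff_of_scale {l : AffineSubspace ℝ (ℝ × ℝ)} {p b w : ℝ × ℝ} (hp : p ∈ l) (s t : ℝ)
    (hs : s ≠ 0) (ht : t ≠ 0) (h : s • (w - p) = t • (b - p)) : b ∈ l ↔ w ∈ l := by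
  constructor
  · intro hb
    have := AffineMap.lineMap_mem (t / s) hp hb
    convert this using 1
    rw [AffineMap.lineMap_apply]
    simp only [vsub_eq_sub, vadd_eq_add]
    rw [div_eq_inv_mul, mul_smul, ← h, smul_smul, inv_mul_cancel₀ hs, one_smul]; abel
  · intro hw
    have := AffineMap.lineMap_mem (s / t) hp hw
    convert this using 1
    rw [AffineMap.lineMap_apply]
    simp only [vsub_eq_sub, vadd_eq_add]
    rw [div_eq_inv_mul, mul_smul, h, smul_smul, inv_mul_cancel₀ ht, one_smul]; abel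

lemma finite_hull (V : Finset (ℝ × ℝ)) :
    {x : ℤ × ℤ | toR x ∈ convexHull ℝ (V : Set (ℝ × ℝ))}.Finite := by
  have hb : Bornology.IsBounded (convexHull ℝ (V : Set (ℝ × ℝ))) :=
    (V.finite_toSet.isCompact_convexHull ℝ).isBounded
  obtain ⟨R, hR⟩ := hb.exists_norm_le
  obtain ⟨n, hn⟩ := exists_nat_ge R
  apply Set.Finite.subset (Finset.Icc (-(n : ℤ), -(n : ℤ)) ((n : ℤ), (n : ℤ))).finite_toSet
  intro x hx
  have h := (hR _ hx).trans hn
  have h1 : |(x.1 : ℝ)| ≤ n := le_trans (norm_fst_le (toR x)) h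
  have h2 : |(x.2 : ℝ)| ≤ n := le_trans (norm_snd_le (toR x)) h
  rw [abs_le] at h1 h2
  simp only [Finset.coe_Icc, Set.mem_Icc, Prod.le_def]
  refine ⟨⟨?_, ?_⟩, ?_, ?_⟩
  · exact_mod_cast h1.1
  · exact_mod_cast h2.1
  · exact_mod_cast h1.2
  · exact_mod_cast h2.2

/-- Removing exposed vertices from the lattice points of a polygon leaves a convex lattice set. -/
lemma convex_remove (K : Set (ℝ × ℝ)) (hK : Convex ℝ K) (C W : Finset (ℤ × ℤ))
    (hC : ∀ x, x ∈ C ↔ toR x ∈ K)
    (hW : ∀ w ∈ W, ∃ f : (ℝ × ℝ) →ᵃ[ℝ] ℝ, ∀ k ∈ K, k ≠ toR w → f k < f (toR w)) :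
    IsConvexLatticeSet (C \ W) := by
  intro x
  constructor
  · intro hx
    exact subset_convexHull ℝ _ ⟨x, hx, rfl⟩
  · intro hx
    rw [Finset.mem_sdiff, hC]
    constructor
    · refine convexHull_min ?_ hK hx
      rintro _ ⟨y, hy, rfl⟩
      exact (hC y).1 (Finset.mem_sdiff.1 hy).1
    · intro hxW
      obtain ⟨f, hf⟩ := hW x hxW
      have hconv : Convex ℝ (f ⁻¹' Set.Iio (f (toR x))) := (convex_Iio _).affine_preimage f
      have : toR x ∈ f ⁻¹' Set.Iio (f (toR x)) := by
        refine convexHull_min ?_ hconv hx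
        rintro _ ⟨y, hy, rfl⟩
        have hy' := Finset.mem_sdiff.1 hy
        apply hf _ ((hC y).1 hy'.1)
        intro h
        exact hy'.2 (toR_inj h ▸ hxW)
      simp at this

lemma exposed (V : Set (ℝ × ℝ)) (w : ℝ × ℝ) (f : (ℝ × ℝ) →ᵃ[ℝ] ℝ)
    (h : ∀ v ∈ V, v ≠ w → f v < f w) : ∀ k ∈ convexHull ℝ V, k ≠ w → f k < f w := by
  have hconv : Convex ℝ {k | k ≠ w → f k < f w} := by
    intro x hx y hy a b ha hb hab hne
    have e : f (a • x + b • y) = a * f x + b * f y := by
      have := Convex.combo_affine_apply (f := f) (x := x) (y := y) hab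
      simpa using this
    rw [e]
    by_cases hxw : x = w
    · by_cases hyw : y = w
      · exact absurd (by rw [hxw, hyw, ← add_smul, hab, one_smul]) hne
      · have h1 := hy hyw
        have hb0 : b ≠ 0 := by
          rintro rfl
          apply hne
          have : a = 1 := by linarith
          simp [this, hxw]
        have : 0 < b := lt_of_le_of_ne hb (Ne.symm hb0)
        rw [hxw]
        have : a = 1 - b := by linarith
        rw [this]; nlinarith
    · have h1 := hx hxw
      by_cases hyw : y = w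
      · have ha0 : a ≠ 0 := by
          rintro rfl
          apply hne
          have : b = 1 := by linarith
          simp [this, hyw]
        have : 0 < a := lt_of_le_of_ne ha (Ne.symm ha0)
        rw [hyw]
        have : b = 1 - a := by linarith
        rw [this]; nlinarith
      · have h2 := hy hyw
        have : b = 1 - a := by linarith
        subst this
        rcases ha.lt_or_eq with h3 | h3
        · nlinarith
        · subst h3; simpa using h2
  exact fun k hk => convexHull_min (t := {k | k ≠ w → f k < f w}) h hconv hk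

lemma count_sdiff (C W : Finset (ℤ × ℤ)) (hW : W ⊆ C) (l : AffineSubspace ℝ (ℝ × ℝ)) :
    countOn (C \ W) l + countOn W l = countOn C l := by
  classical
  have e : ∀ E : Finset (ℤ × ℤ), countOn E l = (E.filter (fun x => toR x ∈ l)).card := by
    intro E
    unfold countOn
    rw [← Set.ncard_coe_finset]
    congr 1
    ext x; simp
  simp only [e]
  rw [← Finset.card_union_of_disjoint (Finset.disjoint_filter_filter Finset.sdiff_disjoint),
    ← Finset.filter_union, Finset.sdiff_union_of_subset hW]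

lemma count_three (a b c a' b' c' : ℤ × ℤ) (l : AffineSubspace ℝ (ℝ × ℝ))
    (h1 : a ≠ b) (h2 : a ≠ c) (h3 : b ≠ c) (h1' : a' ≠ b') (h2' : a' ≠ c') (h3' : b' ≠ c')
    (ea : toR a ∈ l ↔ toR a' ∈ l) (eb : toR b ∈ l ↔ toR b' ∈ l) (ec : toR c ∈ l ↔ toR c' ∈ l) :
    countOn {a, b, c} l = countOn {a', b', c'} l := by
  classical
  have e : ∀ E : Finset (ℤ × ℤ), countOn E l = ∑ x ∈ E, if toR x ∈ l then 1 else 0 := by
    intro E
    unfold countOn
    rw [← Finset.card_filter, ← Set.ncard_coe_finset]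
    congr 1
    ext x; simp
  rw [e, e, Finset.sum_insert (by simp [h1, h2]), Finset.sum_insert (by simp [h3]),
    Finset.sum_insert (by simp [h1', h2']), Finset.sum_insert (by simp [h3'])]
  simp only [Finset.sum_singleton, ea, eb, ec]

section
variable (p q r : ℤ × ℤ)

/-- The lattice point with affine coordinates `(y, z)`. -/
def pt (y z : ℤ) : ℤ × ℤ := p + y • (q - p) + z • (r - p)

/-- The determinant. -/
def det : ℝ := ((q.1 : ℝ) - p.1) * (r.2 - p.2) - (q.2 - p.2) * (r.1 - p.1)

/-- An affine functional in the coordinates. -/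
noncomputable def fn (α β : ℝ) : (ℝ × ℝ) →ᵃ[ℝ] ℝ :=
  AffineMap.mk' (fun x => (α * ((x.1 - p.1) * (r.2 - p.2) - (x.2 - p.2) * (r.1 - p.1)) +
      β * (((q.1 : ℝ) - p.1) * (x.2 - p.2) - (q.2 - p.2) * (x.1 - p.1))) / det p q r)
    (((α * (r.2 - p.2) - β * (q.2 - p.2)) / det p q r) • LinearMap.fst ℝ ℝ ℝ +
      ((β * (q.1 - p.1) - α * (r.1 - p.1)) / det p q r) • LinearMap.snd ℝ ℝ ℝ)
    (toR p) (by
      intro x
      simp [toR]
      ring)

lemma fn_apply (α β : ℝ) (x : ℝ × ℝ) : fn p q r α β x =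
    (α * ((x.1 - p.1) * (r.2 - p.2) - (x.2 - p.2) * (r.1 - p.1)) +
      β * (((q.1 : ℝ) - p.1) * (x.2 - p.2) - (q.2 - p.2) * (x.1 - p.1))) / det p q r := rfl

lemma fn_pt (hd : det p q r ≠ 0) (α β : ℝ) (y z : ℤ) :
    fn p q r α β (toR (pt p q r y z)) = α * y + β * z := by
  rw [fn_apply, div_eq_iff hd]
  simp [toR, pt, det]
  ring

lemma pt_inj (hd : det p q r ≠ 0) {y z y' z' : ℤ} :
    pt p q r y z = pt p q r y' z' ↔ y = y' ∧ z = z' := by
  constructor
  · intro h
    have h1 := fn_pt p q r hd 1 0 y z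
    have h2 := fn_pt p q r hd 0 1 y z
    rw [h, fn_pt p q r hd] at h1 h2
    simp only [one_mul, zero_mul, add_zero, zero_add, Int.cast_inj] at h1 h2
    exact ⟨h1.symm, h2.symm⟩
  · rintro ⟨rfl, rfl⟩; rfl

lemma pt_scale (y0 z0 y z y' z' s t : ℤ) (h1 : s * (y' - y0) = t * (y - y0))
    (h2 : s * (z' - z0) = t * (z - z0)) :
    (s : ℝ) • (toR (pt p q r y' z') - toR (pt p q r y0 z0)) =
      (t : ℝ) • (toR (pt p q r y z) - toR (pt p q r y0 z0)) := by
  have h1' : (s : ℝ) * (y' - y0) = t * (y - y0) := by exact_mod_cast h1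
  have h2' : (s : ℝ) * (z' - z0) = t * (z - z0) := by exact_mod_cast h2
  ext
  · simp [toR, pt]
    linear_combination ((q.1 : ℝ) - p.1) * h1' + ((r.1 : ℝ) - p.1) * h2'
  · simp [toR, pt]
    linear_combination ((q.2 : ℝ) - p.2) * h1' + ((r.2 : ℝ) - p.2) * h2'

lemma pt_iff {l : AffineSubspace ℝ (ℝ × ℝ)} (y0 z0 y z y' z' s t : ℤ)
    (hp : toR (pt p q r y0 z0) ∈ l) (hs : s ≠ 0) (ht : t ≠ 0)
    (h1 : s * (y' - y0) = t * (y - y0)) (h2 : s * (z' - z0) = t * (z - z0)) :
    toR (pt p q r y z) ∈ l ↔ toR (pt p q r y' z') ∈ l :=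
  mem_iff_of_scale hp s t (by exact_mod_cast hs) (by exact_mod_cast ht)
    (pt_scale p q r y0 z0 y z y' z' s t h1 h2)

lemma det_ne (h : ¬ Collinear ℝ {toR p, toR q, toR r}) : det p q r ≠ 0 := by
  intro hd
  apply h
  rw [collinear_iff_of_mem (p₀ := toR p) (by simp)]
  by_cases hq : q = p
  · refine ⟨toR r - toR p, ?_⟩
    intro x hx
    simp only [Set.mem_insert_iff, Set.mem_singleton_iff] at hx
    rcases hx with rfl | rfl | rfl
    · exact ⟨0, by simp⟩
    · exact ⟨0, by simp [hq]⟩
    · exact ⟨1, by simp⟩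
  · refine ⟨toR q - toR p, ?_⟩
    intro x hx
    simp only [Set.mem_insert_iff, Set.mem_singleton_iff] at hx
    rcases hx with rfl | rfl | rfl
    · exact ⟨0, by simp⟩
    · exact ⟨1, by simp⟩
    · unfold det at hd
      by_cases h1 : (q.1 : ℝ) - p.1 = 0
      · have h2 : (q.2 : ℝ) - p.2 ≠ 0 := by
          intro h2
          apply hq
          have e1 : (q.1 : ℝ) = p.1 := by linarith
          have e2 : (q.2 : ℝ) = p.2 := by linarith
          exact Prod.ext (by exact_mod_cast e1) (by exact_mod_cast e2)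
        refine ⟨((r.2 : ℝ) - p.2) / (q.2 - p.2), ?_⟩
        rw [h1] at hd
        have h3 : (r.1 : ℝ) - p.1 = 0 := by
          have : ((q.2 : ℝ) - p.2) * (r.1 - p.1) = 0 := by linarith
          exact (mul_eq_zero.1 this).resolve_left h2
        ext
        · simp only [toR, vadd_eq_add, Prod.fst_add, Prod.smul_fst, Prod.fst_sub, h1, smul_zero]
          linarith
        · simp [toR]; field_simp; ring
      · refine ⟨((r.1 : ℝ) - p.1) / (q.1 - p.1), ?_⟩
        ext
        · simp [toR]; field_simp; ring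
        · simp [toR]; field_simp; linarith

theorem not_determines (hd : det p q r ≠ 0) : ¬ Determines {p, q, r} := by
  classical
  intro hdet
  let B : Finset (ℤ × ℤ) := {pt p q r 7 8, pt p q r 40 45, pt p q r 15 18}
  let W : Finset (ℤ × ℤ) := {pt p q r 105 120, pt p q r 10 12, pt p q r 8 9}
  let V : Finset (ℝ × ℝ) := (B ∪ W).image toR
  let K := convexHull ℝ (V : Set (ℝ × ℝ))
  let C : Finset (ℤ × ℤ) := (finite_hull V).toFinset
  have hC : ∀ x, x ∈ C ↔ toR x ∈ K := by intro x; simp [C, K]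
  have hBW : ∀ x ∈ B ∪ W, x ∈ C := fun x hx =>
    (hC x).2 (subset_convexHull ℝ _ (Finset.mem_coe.2 (Finset.mem_image_of_mem _ hx)))
  have hV : ∀ (Q : ℝ × ℝ → Prop), Q (toR (pt p q r 7 8)) → Q (toR (pt p q r 40 45)) →
      Q (toR (pt p q r 15 18)) → Q (toR (pt p q r 105 120)) → Q (toR (pt p q r 10 12)) →
      Q (toR (pt p q r 8 9)) → ∀ v ∈ (V : Set (ℝ × ℝ)), Q v := by
    intro Q h1 h2 h3 h4 h5 h6 v hv
    obtain ⟨x, hx, rfl⟩ := Finset.mem_image.1 (Finset.mem_coe.1 hv)
    simp only [B, W, Finset.mem_union, Finset.mem_insert, Finset.mem_singleton] at hx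
    rcases hx with (rfl | rfl | rfl) | (rfl | rfl | rfl) <;> assumption
  have hexp : ∀ w ∈ B ∪ W, ∃ f : (ℝ × ℝ) →ᵃ[ℝ] ℝ, ∀ k ∈ K, k ≠ toR w → f k < f (toR w) := by
    intro w hw
    simp only [B, W, Finset.mem_union, Finset.mem_insert, Finset.mem_singleton] at hw
    rcases hw with (rfl | rfl | rfl) | (rfl | rfl | rfl)
    · refine ⟨fn p q r (-1) 0, exposed _ _ _ ?_⟩
      apply hV <;> simp only [fn_pt p q r hd] <;> norm_num
    · refine ⟨fn p q r 8 (-7), exposed _ _ _ ?_⟩
      apply hV <;> simp only [fn_pt p q r hd] <;> norm_num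
    · refine ⟨fn p q r (-7) 6, exposed _ _ _ ?_⟩
      apply hV <;> simp only [fn_pt p q r hd] <;> norm_num
    · refine ⟨fn p q r 0 1, exposed _ _ _ ?_⟩
      apply hV <;> simp only [fn_pt p q r hd] <;> norm_num
    · refine ⟨fn p q r (-5) 4, exposed _ _ _ ?_⟩
      apply hV <;> simp only [fn_pt p q r hd] <;> norm_num
    · refine ⟨fn p q r 10 (-9), exposed _ _ _ ?_⟩
      apply hV <;> simp only [fn_pt p q r hd] <;> norm_num
  have hpos : ∀ α β : ℝ, 0 ≤ α → 0 ≤ β → 1 ≤ α + β → ∀ k ∈ K, 1 < fn p q r α β k := by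
    intro α β h1 h2 h3 k hk
    have hconv : Convex ℝ (fn p q r α β ⁻¹' Set.Ioi 1) := (convex_Ioi _).affine_preimage _
    refine convexHull_min ?_ hconv hk
    intro v hv
    revert v
    apply hV <;> simp only [Set.mem_preimage, Set.mem_Ioi, fn_pt p q r hd] <;> push_cast <;> linarith
  have ep : p = pt p q r 0 0 := by simp [pt]
  have eq' : q = pt p q r 1 0 := by simp [pt]
  have er : r = pt p q r 0 1 := by simp [pt]
  have hline : ∀ a ∈ ({p, q, r} : Finset (ℤ × ℤ)), ∀ b ∈ ({p, q, r} : Finset (ℤ × ℤ)), a ≠ b →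
      ∀ l : AffineSubspace ℝ (ℝ × ℝ), IsLine l → toR a ∈ l → toR b ∈ l → ∀ x ∈ C, toR x ∉ l := by
    intro a ha b hb hab l hl hal hbl x hx hxl
    obtain ⟨t, ht⟩ := mem_line hl (fun h => hab (toR_inj h)) hal hbl hxl
    have key : ∀ α β : ℝ, 0 ≤ α → 0 ≤ β → 1 ≤ α + β → fn p q r α β (toR a) = fn p q r α β (toR b) →
        fn p q r α β (toR a) ≤ 1 → False := by
      intro α β h1 h2 h3 h4 h5
      have h6 := hpos α β h1 h2 h3 _ ((hC x).1 hx)
      have h7 : toR x = AffineMap.lineMap (toR a) (toR b) t := by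
        rw [ht, AffineMap.lineMap_apply]; simp [add_comm]
      rw [h7, AffineMap.apply_lineMap, ← h4, AffineMap.lineMap_same_apply] at h6
      linarith
    have fp : ∀ α β : ℝ, fn p q r α β (toR p) = 0 := fun α β => by
      have := fn_pt p q r hd α β 0 0
      rw [← ep] at this; simpa using this
    have fq : ∀ α β : ℝ, fn p q r α β (toR q) = α := fun α β => by
      have := fn_pt p q r hd α β 1 0
      rw [← eq'] at this; simpa using this
    have fr : ∀ α β : ℝ, fn p q r α β (toR r) = β := fun α β => by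
      have := fn_pt p q r hd α β 0 1
      rw [← er] at this; simpa using this
    simp only [Finset.mem_insert, Finset.mem_singleton] at ha hb
    rcases ha with rfl | rfl | rfl <;> rcases hb with rfl | rfl | rfl
    · exact hab rfl
    · exact key 0 1 (by norm_num) (by norm_num) (by norm_num) (by rw [fp, fq]) (by rw [fp]; norm_num)
    · exact key 1 0 (by norm_num) (by norm_num) (by norm_num) (by rw [fp, fr]) (by rw [fp]; norm_num)
    · exact key 0 1 (by norm_num) (by norm_num) (by norm_num) (by rw [fp, fq]) (by rw [fq]; norm_num)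
    · exact hab rfl
    · exact key 1 1 (by norm_num) (by norm_num) (by norm_num) (by rw [fr, fq]) (by rw [fq])
    · exact key 1 0 (by norm_num) (by norm_num) (by norm_num) (by rw [fp, fr]) (by rw [fr]; norm_num)
    · exact key 1 1 (by norm_num) (by norm_num) (by norm_num) (by rw [fr, fq]) (by rw [fr])
    · exact hab rfl
  have hcl : ∀ X : Finset (ℤ × ℤ), X ⊆ B ∪ W → InClass {p, q, r} (C \ X) := fun X hX =>
    ⟨convex_remove K (convex_convexHull ℝ _) C X hC (fun w hw => hexp w (hX hw)),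
      fun a ha b hb hab l hl hal hbl x hx =>
        hline a ha b hb hab l hl hal hbl x (Finset.mem_sdiff.1 hx).1⟩
  have hx : ∀ a ∈ ({p, q, r} : Finset (ℤ × ℤ)), SameXray a (C \ W) (C \ B) := by
    intro a ha l _ hal
    have h1 := count_sdiff C W (fun x hx => hBW x (Finset.mem_union_right _ hx)) l
    have h2 := count_sdiff C B (fun x hx => hBW x (Finset.mem_union_left _ hx)) l
    suffices countOn B l = countOn W l by omega
    simp only [Finset.mem_insert, Finset.mem_singleton] at ha
    rcases ha with h | h | h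
    · rw [h, ep] at hal
      have : W = {pt p q r 105 120, pt p q r 8 9, pt p q r 10 12} := by
        ext x; simp only [W, Finset.mem_insert, Finset.mem_singleton]; tauto
      rw [this]
      apply count_three <;> try (simp [pt_inj p q r hd])
      · exact pt_iff p q r 0 0 _ _ _ _ 1 15 hal (by norm_num) (by norm_num) (by norm_num) (by norm_num)
      · exact pt_iff p q r 0 0 _ _ _ _ 5 1 hal (by norm_num) (by norm_num) (by norm_num) (by norm_num)
      · exact pt_iff p q r 0 0 _ _ _ _ 3 2 hal (by norm_num) (by norm_num) (by norm_num) (by norm_num)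
    · rw [h, eq'] at hal
      have : W = {pt p q r 10 12, pt p q r 105 120, pt p q r 8 9} := by
        ext x; simp only [W, Finset.mem_insert, Finset.mem_singleton]; tauto
      rw [this]
      apply count_three <;> try (simp [pt_inj p q r hd])
      · exact pt_iff p q r 1 0 _ _ _ _ 2 3 hal (by norm_num) (by norm_num) (by norm_num) (by norm_num)
      · exact pt_iff p q r 1 0 _ _ _ _ 3 8 hal (by norm_num) (by norm_num) (by norm_num) (by norm_num)
      · exact pt_iff p q r 1 0 _ _ _ _ 2 1 hal (by norm_num) (by norm_num) (by norm_num) (by norm_num)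
    · rw [h, er] at hal
      have : W = {pt p q r 8 9, pt p q r 10 12, pt p q r 105 120} := by
        ext x; simp only [W, Finset.mem_insert, Finset.mem_singleton]; tauto
      rw [this]
      apply count_three <;> try (simp [pt_inj p q r hd])
      · exact pt_iff p q r 0 1 _ _ _ _ 7 8 hal (by norm_num) (by norm_num) (by norm_num) (by norm_num)
      · exact pt_iff p q r 0 1 _ _ _ _ 4 1 hal (by norm_num) (by norm_num) (by norm_num) (by norm_num)
      · exact pt_iff p q r 0 1 _ _ _ _ 1 7 hal (by norm_num) (by norm_num) (by norm_num) (by norm_num)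
  have heq := hdet _ _ (hcl W Finset.subset_union_right) (hcl B Finset.subset_union_left) hx
  have h1 : pt p q r 7 8 ∈ C \ W := by
    rw [Finset.mem_sdiff]
    refine ⟨hBW _ (by simp [B]), ?_⟩
    simp [W, pt_inj p q r hd]
  rw [heq] at h1
  exact (Finset.mem_sdiff.1 h1).2 (by simp [B])

end

theorem main (P : Finset (ℤ × ℤ)) (hP : P.card = 3)
    (hc : ¬ Collinear ℝ (toR '' (P : Set (ℤ × ℤ)))) : ¬ Determines P := by
  obtain ⟨p, q, r, -, -, -, rfl⟩ := Finset.card_eq_three.1 hP
  apply not_determines p q r (det_ne p q r _)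
  simpa [Set.image_insert_eq] using hc

end Pool.Agent.H11.Xray
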